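import Pool.Agent.H27.ZF.TA

/-!
Row ESQ of board zf (MP_52e316_nt).
-/

set_option autoImplicit false

namespace Pool.Agent.H76.ZF

open Pool.Agent.H27.ZF

/-- a set of primes is determined by the product of the `k`-th powers -/
lemma prod_pow_inj {S T : Finset ℕ} {k : ℕ} (hk : 1 ≤ k) (hS : ∀ p ∈ S, p.Prime) (hT : ∀ p ∈ T, p.Prime)
    (h : ∏ p ∈ S, p ^ k = ∏ p ∈ T, p ^ k) : S = T := by
  have key : ∀ {A B : Finset ℕ}, (∀ p ∈ A, p.Prime) → (∀ p ∈ B, p.Prime) →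
      ∏ p ∈ A, p ^ k = ∏ p ∈ B, p ^ k → A ⊆ B := by
    intro A B hA hB hAB p hp
    have hpp := hA p hp
    have h1 : p ∣ ∏ p ∈ A, p ^ k :=
      (dvd_pow_self p (by omega)).trans (Finset.dvd_prod_of_mem (fun p => p ^ k) hp)
    rw [hAB] at h1
    obtain ⟨q, hq, hq2⟩ := (hpp.prime.dvd_finset_prod_iff _).1 h1
    have h3 : p ∣ q := hpp.dvd_of_dvd_pow hq2
    have h4 : p = q := (Nat.prime_dvd_prime_iff_eq hpp (hB q hq)).1 h3
    rw [h4]; exact hq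
  exact Finset.Subset.antisymm (key hS hT h) (key hT hS h.symm)

/-- multiplicativity over products of prime powers -/
lemma lam_prod {m : ℕ} {lam : ℕ → ℂ} {q : ℕ → ℕ → ℂ} (hE : Eul m lam q) (k : ℕ) (S : Finset ℕ)
    (hS : ∀ p ∈ S, p.Prime) : lam (∏ p ∈ S, p ^ k) = ∏ p ∈ S, lam (p ^ k) := by
  classical
  induction S using Finset.induction_on with
  | empty => simpa using hE.one
  | insert a S ha ih =>
    rw [Finset.prod_insert ha, Finset.prod_insert ha, hE.mul, ih fun p hp => hS p (Finset.mem_insert_of_mem hp)]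
    refine Nat.Coprime.prod_right fun p hp => ?_
    refine Nat.Coprime.pow _ _ ?_
    rw [Nat.coprime_primes (hS a (Finset.mem_insert_self a S)) (hS p (Finset.mem_insert_of_mem hp))]
    rintro rfl
    exact ha hp

lemma mem_UP {z0 z : ℝ} {j p : ℕ} (h : p ∈ UP z0 z j) : p.Prime ∧ 2 ^ (j - 1) < p ∧ p ≤ 2 ^ j := by
  unfold UP at h
  rw [Finset.mem_filter, Finset.mem_Ioc] at h
  exact ⟨h.2.1, h.1.1, h.1.2⟩

/-- the product of `l` different `k`-th powers lies in one of the blocks -/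
lemma prod_mem {z0 z : ℝ} {j k l : ℕ} (hk : 1 ≤ k) (hl : 1 ≤ l) {S : Finset ℕ}
    (hS : S ∈ Finset.powersetCard l (UP z0 z j)) :
    2 ^ ((j - 1) * k * l) < ∏ p ∈ S, p ^ k ∧ ∏ p ∈ S, p ^ k ≤ 2 ^ (j * k * l) := by
  rw [Finset.mem_powersetCard] at hS
  obtain ⟨hSU, hcard⟩ := hS
  have hne : S.Nonempty := by
    rw [← Finset.card_pos, hcard]; omega
  constructor
  · have h1 : 2 ^ ((j - 1) * k * l) = ∏ p ∈ S, 2 ^ ((j - 1) * k) := by
      rw [Finset.prod_const, hcard, ← pow_mul]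
    rw [h1]
    refine Finset.prod_lt_prod_of_nonempty (fun p _ => by positivity) (fun p hp => ?_) hne
    rw [pow_mul]
    exact Nat.pow_lt_pow_left (mem_UP (hSU hp)).2.1 (by omega)
  · have h1 : 2 ^ (j * k * l) = ∏ p ∈ S, 2 ^ (j * k) := by
      rw [Finset.prod_const, hcard, ← pow_mul]
    rw [h1]
    refine Finset.prod_le_prod' fun p hp => ?_
    rw [pow_mul]
    exact Nat.pow_le_pow_left (mem_UP (hSU hp)).2.2 _

lemma mem_Bk {r n : ℕ} (hr : 1 ≤ r) : n ∈ Bk r ↔ 2 ^ (r - 1) < n ∧ n ≤ 2 ^ r := by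
  unfold Bk
  rw [Finset.mem_Ioc]
  have h : 2 ^ r / 2 = 2 ^ (r - 1) := by
    obtain ⟨s, rfl⟩ : ∃ s, r = s + 1 := ⟨r - 1, by omega⟩
    rw [pow_succ]; simp
  rw [h]

/-- every integer of `(2^a, 2^b]` lies in a block `r`, `a < r ≤ b` -/
lemma exists_block {a b n : ℕ} (h1 : 2 ^ a < n) (h2 : n ≤ 2 ^ b) :
    ∃ r ∈ Finset.Icc (a + 1) b, n ∈ Bk r := by
  induction b with
  | zero =>
    exfalso
    have : 1 ≤ 2 ^ a := Nat.one_le_two_pow
    simp at h2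
    omega
  | succ b ih =>
    by_cases h : n ≤ 2 ^ b
    · obtain ⟨r, hr, hr2⟩ := ih h
      rw [Finset.mem_Icc] at hr
      exact ⟨r, Finset.mem_Icc.2 ⟨hr.1, by omega⟩, hr2⟩
    · refine ⟨b + 1, Finset.mem_Icc.2 ⟨?_, le_rfl⟩, (mem_Bk (by omega)).2 ⟨by simpa using not_le.1 h, h2⟩⟩
      have h3 : 2 ^ a < 2 ^ (b + 1) := h1.trans_le h2
      have h4 : a < b + 1 := (Nat.pow_lt_pow_iff_right (by norm_num)).1 h3
      omega

lemma block_unique {r s n : ℕ} (hr : 1 ≤ r) (hs : 1 ≤ s) (h1 : n ∈ Bk r) (h2 : n ∈ Bk s) : r = s := by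
  rw [mem_Bk hr] at h1
  rw [mem_Bk hs] at h2
  have h3 : 2 ^ (r - 1) < 2 ^ s := h1.1.trans_le h2.2
  have h4 : 2 ^ (s - 1) < 2 ^ r := h2.1.trans_le h1.2
  have h5 : r - 1 < s := (Nat.pow_lt_pow_iff_right (by norm_num)).1 h3
  have h6 : s - 1 < r := (Nat.pow_lt_pow_iff_right (by norm_num)).1 h4
  omega

/-- the set of the products -/
noncomputable def PS (U : Finset ℕ) (k l : ℕ) : Finset ℕ :=
  (Finset.powersetCard l U).image fun S => ∏ p ∈ S, p ^ k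

lemma sum_powersetCard_eq {M : Type} [AddCommMonoid M] {z0 z : ℝ} {j k l : ℕ} (hk : 1 ≤ k) (f : ℕ → M) :
    ∑ S ∈ Finset.powersetCard l (UP z0 z j), f (∏ p ∈ S, p ^ k) = ∑ n ∈ PS (UP z0 z j) k l, f n := by
  unfold PS
  rw [Finset.sum_image]
  intro S hS T hT hST
  have hS' := (Finset.mem_powersetCard.1 (Finset.mem_coe.1 hS)).1
  have hT' := (Finset.mem_powersetCard.1 (Finset.mem_coe.1 hT)).1
  exact prod_pow_inj hk (fun p hp => (mem_UP (hS' hp)).1) (fun p hp => (mem_UP (hT' hp)).1) hST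

lemma PS_subset {z0 z : ℝ} {j k l : ℕ} (hk : 1 ≤ k) (hl : 1 ≤ l) :
    PS (UP z0 z j) k l ⊆ (Finset.Icc ((j - 1) * k * l + 1) (j * k * l)).biUnion Bk := by
  intro n hn
  unfold PS at hn
  rw [Finset.mem_image] at hn
  obtain ⟨S, hS, rfl⟩ := hn
  obtain ⟨h1, h2⟩ := prod_mem hk hl hS
  obtain ⟨r, hr, hr2⟩ := exists_block h1 h2
  exact Finset.mem_biUnion.2 ⟨r, hr, hr2⟩

lemma sum_blocks {M : Type} [AddCommMonoid M] (a b : ℕ) (f : ℕ → M) :
    ∑ n ∈ (Finset.Icc (a + 1) b).biUnion Bk, f n = ∑ r ∈ Finset.Icc (a + 1) b, ∑ n ∈ Bk r, f n := by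
  rw [Finset.sum_biUnion]
  intro r hr s hs hrs
  rw [Finset.mem_coe, Finset.mem_Icc] at hr hs
  rw [Function.onFun, Finset.disjoint_left]
  intro n h1 h2
  exact hrs (block_unique (by omega) (by omega) h1 h2)

theorem pf_ESQ : T_ESQ := by
  intro m lam q hE z0 z j k l hj hk hl σ hσ
  have h1 : ∀ S ∈ Finset.powersetCard l (UP z0 z j),
      ∏ p ∈ S, (‖lam (p ^ k)‖ ^ 2 * (p : ℝ) ^ (-(2 * k * σ))) =
        ‖lam (∏ p ∈ S, p ^ k)‖ ^ 2 * ((∏ p ∈ S, p ^ k : ℕ) : ℝ) ^ (-(2 * σ)) := by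
    intro S hS
    have hSU := (Finset.mem_powersetCard.1 hS).1
    rw [lam_prod hE k S fun p hp => (mem_UP (hSU hp)).1, norm_prod, Finset.prod_mul_distrib,
      Finset.prod_pow, Nat.cast_prod, ← Real.finset_prod_rpow _ _ (fun p _ => by positivity)]
    congr 1
    refine Finset.prod_congr rfl fun p _ => ?_
    rw [Nat.cast_pow, ← Real.rpow_natCast, ← Real.rpow_mul (Nat.cast_nonneg p)]
    congr 1
    ring
  rw [Finset.sum_congr rfl h1,
    sum_powersetCard_eq hk (fun n : ℕ => ‖lam n‖ ^ 2 * (n : ℝ) ^ (-(2 * σ)))]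
  refine (Finset.sum_le_sum_of_subset_of_nonneg (PS_subset hk hl) fun n _ _ => by positivity).trans ?_
  rw [sum_blocks]
  refine Finset.sum_le_sum fun r hr => ?_
  rw [Finset.mul_sum]
  refine Finset.sum_le_sum fun n hn => ?_
  have hr1 : 1 ≤ r := by
    have := (Finset.mem_Icc.1 hr).1
    omega
  have hn' := ((mem_Bk hr1).1 hn).1
  have hn2 : ((2 : ℝ) ^ ((r : ℝ) - 1)) ≤ n := by
    have h3 : ((2 ^ (r - 1) : ℕ) : ℝ) ≤ n := by exact_mod_cast hn'.le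
    have h4 : (2 : ℝ) ^ ((r : ℝ) - 1) = ((2 ^ (r - 1) : ℕ) : ℝ) := by
      rw [Nat.cast_pow, ← Real.rpow_natCast, Nat.cast_sub hr1]
      norm_num
    rw [h4]; exact h3
  have h5 : (n : ℝ) ^ (-(2 * σ)) ≤ (2 : ℝ) ^ (-(2 * σ * ((r : ℝ) - 1))) := by
    have h6 : (2 : ℝ) ^ (-(2 * σ * ((r : ℝ) - 1))) = ((2 : ℝ) ^ ((r : ℝ) - 1)) ^ (-(2 * σ)) := by
      rw [← Real.rpow_mul (by norm_num)]
      congr 1
      ring
    rw [h6]
    exact Real.rpow_le_rpow_of_nonpos (by positivity) hn2 (by linarith)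
  rw [mul_comm]
  exact mul_le_mul_of_nonneg_right h5 (by positivity)

end Pool.Agent.H76.ZF
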