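import Pool.Agent.H76.ZF.ESQ

/-!
Row ESD of board zf (MP_52e316_nt).
-/

set_option autoImplicit false

namespace Pool.Agent.H76.ZF

open Pool.Agent.H27.ZF

theorem pf_ESD : T_ESD := by
  intro m lam q hE z0 z j k l hj hk hl s
  have h1 : ES lam (UP z0 z j) k l s =
      ∑ S ∈ Finset.powersetCard l (UP z0 z j),
        lam (∏ p ∈ S, p ^ k) * ((∏ p ∈ S, p ^ k : ℕ) : ℂ) ^ (-s) := by
    unfold ES
    refine Finset.sum_congr rfl fun S hS => ?_
    have hSU := (Finset.mem_powersetCard.1 hS).1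
    rw [Finset.prod_mul_distrib, lam_prod hE k S fun p hp => (mem_UP (hSU hp)).1, Nat.cast_prod]
    congr 1
    clear hS hSU
    induction S using Finset.induction_on with
    | empty => simp
    | insert a S ha ih =>
      rw [Finset.prod_insert ha, Finset.prod_insert ha, ih]
      have h2 : ∏ x ∈ S, ((x ^ k : ℕ) : ℂ) = ((∏ x ∈ S, x ^ k : ℕ) : ℂ) := by rw [Nat.cast_prod]
      rw [h2, Complex.natCast_mul_natCast_cpow, Nat.cast_pow, ← Complex.natCast_cpow_natCast_mul]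
      congr 2
      ring
  rw [h1, sum_powersetCard_eq hk (fun n : ℕ => lam n * (n : ℂ) ^ (-s))]
  have h2 : ∀ r, DB lam (bb (UP z0 z j) k l) r s =
      ∑ n ∈ Bk r, if n ∈ PS (UP z0 z j) k l then lam n * (n : ℂ) ^ (-s) else 0 := by
    intro r
    unfold DB
    refine Finset.sum_congr rfl fun n _ => ?_
    have h3 : (∃ S ∈ Finset.powersetCard l (UP z0 z j), n = ∏ p ∈ S, p ^ k) ↔
        n ∈ PS (UP z0 z j) k l := by
      unfold PS
      rw [Finset.mem_image]
      exact ⟨fun ⟨S, h, e⟩ => ⟨S, h, e.symm⟩, fun ⟨S, h, e⟩ => ⟨S, h, e.symm⟩⟩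
    unfold bb
    by_cases h : n ∈ PS (UP z0 z j) k l
    · rw [if_pos h, if_pos (h3.2 h)]; ring
    · rw [if_neg h, if_neg (mt h3.1 h)]; ring
  rw [Finset.sum_congr rfl fun r _ => h2 r,
    ← sum_blocks ((j - 1) * k * l) (j * k * l)
      (fun n => if n ∈ PS (UP z0 z j) k l then lam n * (n : ℂ) ^ (-s) else 0),
    ← Finset.sum_filter]
  refine Finset.sum_congr ?_ fun _ _ => rfl
  ext n
  rw [Finset.mem_filter]
  exact ⟨fun h => ⟨PS_subset hk hl h, h⟩, fun h => h.2⟩

end Pool.Agent.H76.ZF
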